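import Pool.Agent.H81.Quadri2

namespace Pool.Agent.Results.MP_79dd7e_co.Infinite
open H81Quadri

theorem result (n : ℕ) (hn : 4 ≤ n) :
    ∃ R : Set (ℝ × ℝ), IsConvexGon (2 * n + 1) R ∧ (quadrisections R).Infinite := by
  have h := main (2 * n + 1 - 8)
  rwa [show 2 * n + 1 - 8 + 8 = 2 * n + 1 by omega] at h

end Pool.Agent.Results.MP_79dd7e_co.Infinite
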